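import Pool.Agent.Y677.Co.Step

/-!
# Coarseness of complete graphs: the explicit packings (helper677)

The packings of `K₁₃`, `K₁₆`, `K₁₈` and of `K₁₉` with a hole of ten points were found by a SAT
search.
-/

set_option autoImplicit false

namespace Pool.Agent.Y677.Co

/-- eight pieces of the complete graph on 13 vertices -/
def T13 : List (List ℕ) :=
  [[0, 2, 2, 1, 1, 2, 6, 8, 8, 6, 6, 8, 1],
   [2, 0, 7, 2, 2, 3, 7, 7, 3, 3, 1, 1, 1],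
   [2, 7, 0, 7, 2, 4, 4, 8, 8, 4, 7, 8, 2],
   [1, 2, 7, 0, 5, 2, 7, 7, 5, 5, 1, 1, 2],
   [1, 2, 2, 5, 0, 2, 5, 5, 3, 3, 1, 1, 3],
   [2, 3, 4, 2, 2, 0, 6, 4, 4, 6, 3, 6, 3],
   [6, 7, 4, 7, 5, 6, 0, 4, 5, 5, 7, 4, 6],
   [8, 7, 8, 7, 5, 4, 4, 0, 5, 4, 7, 5, 8],
   [8, 3, 8, 5, 3, 4, 5, 5, 0, 4, 3, 4, 8],
   [6, 3, 4, 5, 3, 6, 5, 4, 4, 0, 3, 5, 6],
   [6, 1, 7, 1, 1, 3, 7, 7, 3, 3, 0, 6, 6],
   [8, 1, 8, 1, 1, 6, 4, 5, 4, 5, 6, 0, 8],
   [1, 1, 2, 2, 3, 3, 6, 8, 8, 6, 6, 8, 0]]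

lemma s13 : ∀ u v : Fin 13, tab T13 u v = tab T13 v u := by decide +kernel

lemma d13 : ∀ u : Fin 13, tab T13 u u = 0 := by decide +kernel

lemma fam13 : Fam fun i : Fin 8 => col (tab T13) s13 d13 i := by
  refine fam_col fun i => ?_
  fin_cases i
  · exact col_S _ ![0, 10, 11] ![1, 3, 4] 12 (by decide) (by decide) (by decide) (by decide)
      (by decide +kernel) (by decide +kernel) (by decide +kernel)
  · exact col_S _ ![2, 1, 5] ![3, 0, 4] 12 (by decide) (by decide) (by decide) (by decide)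
      (by decide +kernel) (by decide +kernel) (by decide +kernel)
  · exact col_S _ ![4, 1, 10] ![5, 8, 9] 12 (by decide) (by decide) (by decide) (by decide)
      (by decide +kernel) (by decide +kernel) (by decide +kernel)
  · exact col_S _ ![8, 2, 7] ![6, 5, 9] 11 (by decide) (by decide) (by decide) (by decide)
      (by decide +kernel) (by decide +kernel) (by decide +kernel)
  · exact col_S _ ![9, 4, 8] ![7, 3, 6] 11 (by decide) (by decide) (by decide) (by decide)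
      (by decide +kernel) (by decide +kernel) (by decide +kernel)
  · exact col_S _ ![5, 0, 12] ![10, 6, 9] 11 (by decide) (by decide) (by decide) (by decide)
      (by decide +kernel) (by decide +kernel) (by decide +kernel)
  · exact col_K33 _ ![2, 6, 7] ![1, 3, 10] (by decide) (by decide) (by decide +kernel)
  · exact col_K33 _ ![7, 8, 11] ![0, 2, 12] (by decide) (by decide) (by decide +kernel)

/-- thirteen pieces of the complete graph on 16 vertices -/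
def T16 : List (List ℕ) :=
  [[0, 9, 7, 1, 9, 7, 10, 7, 9, 1, 10, 6, 6, 6, 10, 1],
   [9, 0, 9, 9, 13, 4, 4, 4, 2, 13, 1, 13, 2, 1, 2, 1],
   [7, 9, 0, 7, 9, 8, 7, 12, 9, 3, 8, 12, 3, 8, 12, 3],
   [1, 9, 7, 0, 9, 7, 11, 7, 9, 3, 1, 11, 3, 1, 11, 3],
   [9, 13, 9, 9, 0, 8, 13, 12, 13, 3, 8, 12, 3, 8, 12, 3],
   [7, 4, 8, 7, 8, 0, 7, 8, 5, 5, 5, 6, 6, 6, 4, 4],
   [10, 4, 7, 11, 13, 7, 0, 7, 10, 13, 11, 13, 11, 10, 4, 4],
   [7, 4, 12, 7, 12, 8, 7, 0, 2, 12, 8, 2, 2, 8, 4, 4],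
   [9, 2, 9, 9, 13, 5, 10, 2, 0, 13, 10, 13, 5, 2, 10, 5],
   [1, 13, 3, 3, 3, 5, 13, 12, 13, 0, 1, 12, 5, 1, 12, 5],
   [10, 1, 8, 1, 8, 5, 11, 8, 10, 1, 0, 11, 5, 10, 11, 5],
   [6, 13, 12, 11, 12, 6, 13, 2, 13, 12, 11, 0, 11, 2, 2, 6],
   [6, 2, 3, 3, 3, 6, 11, 2, 5, 5, 5, 11, 0, 2, 11, 6],
   [6, 1, 8, 1, 8, 6, 10, 8, 2, 1, 10, 2, 2, 0, 10, 6],
   [10, 2, 12, 11, 12, 4, 4, 4, 10, 12, 11, 2, 11, 10, 0, 0],
   [1, 1, 3, 3, 3, 4, 4, 4, 5, 5, 5, 6, 6, 6, 0, 0]]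

lemma s16 : ∀ u v : Fin 16, tab T16 u v = tab T16 v u := by decide +kernel

lemma d16 : ∀ u : Fin 16, tab T16 u u = 0 := by decide +kernel

lemma fam16 : Fam fun i : Fin 13 => col (tab T16) s16 d16 i := by
  refine fam_col fun i => ?_
  fin_cases i
  · exact col_S _ ![0, 10, 13] ![1, 3, 9] 15 (by decide) (by decide) (by decide) (by decide)
      (by decide +kernel) (by decide +kernel) (by decide +kernel)
  · exact col_S _ ![11, 8, 12] ![1, 7, 13] 14 (by decide) (by decide) (by decide) (by decide)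
      (by decide +kernel) (by decide +kernel) (by decide +kernel)
  · exact col_K33 _ ![9, 12, 15] ![2, 3, 4] (by decide) (by decide) (by decide +kernel)
  · exact col_K33 _ ![1, 14, 15] ![5, 6, 7] (by decide) (by decide) (by decide +kernel)
  · exact col_K33 _ ![5, 12, 15] ![8, 9, 10] (by decide) (by decide) (by decide +kernel)
  · exact col_K33 _ ![0, 5, 15] ![11, 12, 13] (by decide) (by decide) (by decide +kernel)
  · exact col_K33 _ ![2, 5, 7] ![0, 3, 6] (by decide) (by decide) (by decide +kernel)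
  · exact col_K33 _ ![2, 4, 7] ![5, 10, 13] (by decide) (by decide) (by decide +kernel)
  · exact col_K33 _ ![1, 4, 8] ![0, 2, 3] (by decide) (by decide) (by decide +kernel)
  · exact col_K33 _ ![0, 8, 13] ![6, 10, 14] (by decide) (by decide) (by decide +kernel)
  · exact col_K33 _ ![6, 11, 14] ![3, 10, 12] (by decide) (by decide) (by decide +kernel)
  · exact col_K33 _ ![2, 4, 9] ![7, 11, 14] (by decide) (by decide) (by decide +kernel)
  · exact col_K33 _ ![4, 9, 11] ![1, 6, 8] (by decide) (by decide) (by decide +kernel)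

/-- sixteen pieces of the complete graph on 18 vertices -/
def T18 : List (List ℕ) :=
  [[0, 8, 8, 1, 15, 5, 15, 1, 1, 5, 11, 1, 5, 8, 5, 11, 15, 11],
   [8, 0, 6, 2, 2, 6, 6, 13, 6, 9, 2, 8, 9, 13, 9, 2, 13, 8],
   [8, 6, 0, 14, 4, 6, 6, 4, 6, 9, 14, 8, 9, 4, 9, 14, 4, 8],
   [1, 2, 14, 0, 2, 7, 10, 1, 1, 10, 2, 1, 7, 14, 7, 2, 14, 10],
   [15, 2, 4, 2, 0, 12, 10, 4, 12, 10, 2, 12, 15, 4, 15, 2, 4, 10],
   [5, 6, 6, 7, 12, 0, 6, 7, 6, 5, 16, 7, 5, 16, 5, 12, 12, 16],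
   [15, 6, 6, 10, 10, 6, 0, 13, 6, 3, 3, 3, 15, 13, 15, 10, 13, 3],
   [1, 13, 4, 1, 4, 7, 13, 0, 1, 13, 11, 1, 7, 4, 7, 11, 4, 11],
   [1, 6, 6, 1, 12, 6, 6, 1, 0, 9, 16, 1, 9, 16, 9, 12, 12, 16],
   [5, 9, 9, 10, 10, 5, 3, 13, 9, 0, 3, 3, 5, 13, 5, 10, 13, 3],
   [11, 2, 14, 2, 2, 16, 3, 11, 16, 3, 0, 3, 11, 14, 16, 2, 14, 3],
   [1, 8, 8, 1, 12, 7, 3, 1, 1, 3, 3, 0, 7, 8, 7, 12, 12, 3],
   [5, 9, 9, 7, 15, 5, 15, 7, 9, 5, 11, 7, 0, 0, 5, 11, 15, 11],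
   [8, 13, 4, 14, 4, 16, 13, 4, 16, 13, 14, 8, 0, 0, 16, 14, 4, 8],
   [5, 9, 9, 7, 15, 5, 15, 7, 9, 5, 16, 7, 5, 16, 0, 0, 15, 16],
   [11, 2, 14, 2, 2, 12, 10, 11, 12, 10, 2, 12, 11, 14, 0, 0, 14, 10],
   [15, 13, 4, 14, 4, 12, 13, 4, 12, 13, 14, 12, 15, 4, 15, 14, 0, 0],
   [11, 8, 8, 10, 10, 16, 3, 11, 16, 3, 3, 3, 11, 8, 16, 10, 0, 0]]

lemma s18 : ∀ u v : Fin 18, tab T18 u v = tab T18 v u := by decide +kernel

lemma d18 : ∀ u : Fin 18, tab T18 u u = 0 := by decide +kernel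

lemma fam18 : Fam fun i : Fin 16 => col (tab T18) s18 d18 i := by
  refine fam_col fun i => ?_
  fin_cases i
  · exact col_K5 _ ![0, 3, 7, 8, 11] (by decide) (by decide +kernel)
  · exact col_K5 _ ![1, 3, 4, 10, 15] (by decide) (by decide +kernel)
  · exact col_K5 _ ![6, 9, 10, 11, 17] (by decide) (by decide +kernel)
  · exact col_K5 _ ![2, 4, 7, 13, 16] (by decide) (by decide +kernel)
  · exact col_K5 _ ![0, 5, 9, 12, 14] (by decide) (by decide +kernel)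
  · exact col_K5 _ ![1, 2, 5, 6, 8] (by decide) (by decide +kernel)
  · exact col_K33 _ ![3, 7, 11] ![5, 12, 14] (by decide) (by decide) (by decide +kernel)
  · exact col_K33 _ ![1, 2, 13] ![0, 11, 17] (by decide) (by decide) (by decide +kernel)
  · exact col_K33 _ ![9, 12, 14] ![1, 2, 8] (by decide) (by decide) (by decide +kernel)
  · exact col_K33 _ ![6, 9, 17] ![3, 4, 15] (by decide) (by decide) (by decide +kernel)
  · exact col_K33 _ ![10, 15, 17] ![0, 7, 12] (by decide) (by decide) (by decide +kernel)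
  · exact col_K33 _ ![4, 15, 16] ![5, 8, 11] (by decide) (by decide) (by decide +kernel)
  · exact col_K33 _ ![7, 13, 16] ![1, 6, 9] (by decide) (by decide) (by decide +kernel)
  · exact col_K33 _ ![2, 13, 16] ![3, 10, 15] (by decide) (by decide) (by decide +kernel)
  · exact col_K33 _ ![4, 6, 16] ![0, 12, 14] (by decide) (by decide) (by decide +kernel)
  · exact col_K33 _ ![10, 13, 17] ![5, 8, 14] (by decide) (by decide) (by decide +kernel)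

/-- fourteen copies of `K₃,₃` which cover all pairs of 19 vertices but those inside `9, …, 18` -/
def T19 : List (List ℕ) :=
  [[0, 1, 13, 13, 6, 4, 8, 13, 11, 8, 11, 8, 6, 4, 6, 4, 1, 1, 11],
   [1, 0, 14, 14, 6, 4, 14, 1, 1, 2, 2, 3, 6, 4, 6, 4, 3, 3, 2],
   [13, 14, 0, 7, 14, 7, 7, 12, 11, 14, 11, 3, 12, 13, 12, 13, 3, 3, 11],
   [13, 14, 7, 0, 14, 5, 5, 9, 5, 14, 9, 10, 10, 13, 10, 13, 7, 7, 9],
   [6, 6, 14, 14, 0, 4, 14, 12, 6, 2, 2, 3, 12, 4, 12, 4, 3, 3, 2],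
   [4, 4, 7, 5, 4, 0, 8, 12, 11, 8, 11, 8, 12, 5, 12, 5, 7, 7, 11],
   [8, 14, 7, 5, 14, 8, 0, 9, 8, 14, 9, 10, 10, 5, 10, 5, 7, 7, 9],
   [13, 1, 12, 9, 12, 12, 9, 0, 9, 2, 2, 10, 10, 13, 10, 13, 1, 1, 2],
   [11, 1, 11, 5, 6, 11, 8, 9, 0, 8, 9, 8, 6, 5, 6, 5, 1, 1, 9],
   [8, 2, 14, 14, 2, 8, 14, 2, 8, 0, 0, 0, 0, 0, 0, 0, 0, 0, 0],
   [11, 2, 11, 9, 2, 11, 9, 2, 9, 0, 0, 0, 0, 0, 0, 0, 0, 0, 0],
   [8, 3, 3, 10, 3, 8, 10, 10, 8, 0, 0, 0, 0, 0, 0, 0, 0, 0, 0],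
   [6, 6, 12, 10, 12, 12, 10, 10, 6, 0, 0, 0, 0, 0, 0, 0, 0, 0, 0],
   [4, 4, 13, 13, 4, 5, 5, 13, 5, 0, 0, 0, 0, 0, 0, 0, 0, 0, 0],
   [6, 6, 12, 10, 12, 12, 10, 10, 6, 0, 0, 0, 0, 0, 0, 0, 0, 0, 0],
   [4, 4, 13, 13, 4, 5, 5, 13, 5, 0, 0, 0, 0, 0, 0, 0, 0, 0, 0],
   [1, 3, 3, 7, 3, 7, 7, 1, 1, 0, 0, 0, 0, 0, 0, 0, 0, 0, 0],
   [1, 3, 3, 7, 3, 7, 7, 1, 1, 0, 0, 0, 0, 0, 0, 0, 0, 0, 0],
   [11, 2, 11, 9, 2, 11, 9, 2, 9, 0, 0, 0, 0, 0, 0, 0, 0, 0, 0]]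

lemma s19 : ∀ u v : Fin 19, tab T19 u v = tab T19 v u := by decide +kernel

lemma d19 : ∀ u : Fin 19, tab T19 u u = 0 := by decide +kernel

lemma fam19 : Fam fun i : Fin 14 => col (tab T19) s19 d19 i := by
  refine fam_col fun i => ?_
  fin_cases i
  · exact col_K33 _ ![1, 16, 17] ![0, 7, 8] (by decide) (by decide) (by decide +kernel)
  · exact col_K33 _ ![1, 4, 7] ![9, 10, 18] (by decide) (by decide) (by decide +kernel)
  · exact col_K33 _ ![11, 16, 17] ![1, 2, 4] (by decide) (by decide) (by decide +kernel)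
  · exact col_K33 _ ![0, 1, 4] ![5, 13, 15] (by decide) (by decide) (by decide +kernel)
  · exact col_K33 _ ![3, 13, 15] ![5, 6, 8] (by decide) (by decide) (by decide +kernel)
  · exact col_K33 _ ![0, 1, 8] ![4, 12, 14] (by decide) (by decide) (by decide +kernel)
  · exact col_K33 _ ![3, 5, 6] ![2, 16, 17] (by decide) (by decide) (by decide +kernel)
  · exact col_K33 _ ![6, 9, 11] ![0, 5, 8] (by decide) (by decide) (by decide +kernel)
  · exact col_K33 _ ![7, 10, 18] ![3, 6, 8] (by decide) (by decide) (by decide +kernel)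
  · exact col_K33 _ ![11, 12, 14] ![3, 6, 7] (by decide) (by decide) (by decide +kernel)
  · exact col_K33 _ ![0, 2, 5] ![8, 10, 18] (by decide) (by decide) (by decide +kernel)
  · exact col_K33 _ ![7, 12, 14] ![2, 4, 5] (by decide) (by decide) (by decide +kernel)
  · exact col_K33 _ ![2, 3, 7] ![0, 13, 15] (by decide) (by decide) (by decide +kernel)
  · exact col_K33 _ ![1, 4, 9] ![2, 3, 6] (by decide) (by decide) (by decide +kernel)

lemma hole19 : ∀ u v : Fin 19, tab T19 u v ≠ 0 → u.val < 9 ∨ v.val < 9 := by decide +kernel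

end Pool.Agent.Y677.Co
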