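import Pool.Agent.Y677.Co.Up2

/-!
# Coarseness of complete graphs: packings (helper677)
-/

set_option autoImplicit false

namespace Pool.Agent.Y677.Co

open SimpleGraph

/-- a family of edge-disjoint nonplanar graphs -/
def Fam {V I : Type} (H : I → SimpleGraph V) : Prop :=
  (∀ i, Nonplanar (H i)) ∧ ∀ i j, i ≠ j → ∀ u v, (H i).Adj u v → ¬ (H j).Adj u v

/-- packings from families -/
lemma packing_of_fam {V I : Type} [Fintype I] {H : I → SimpleGraph V} (h : Fam H) {k : ℕ}
    (hk : Fintype.card I = k) : HasPacking (⊤ : SimpleGraph V) k := by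
  subst hk
  set e := (Fintype.equivFin I).symm with he
  refine ⟨fun i => toSubgraph (H (e i)) le_top, ?_, ?_⟩
  · intro i
    exact nonplanar_map (G := H (e i))
      ⟨fun v => ⟨v, by simp [toSubgraph]⟩, fun h => h⟩ (fun a b hab => congrArg Subtype.val hab) (h.1 (e i))
  · intro i j hij
    rw [Set.disjoint_left]
    intro s hs hs'
    induction s with
    | h u v => exact h.2 (e i) (e j) (fun hh => hij (e.injective hh)) u v hs hs'

/-- a copy is a subdivision -/
lemma subdivision_of_copy {W V : Type} (H : SimpleGraph W) (G : SimpleGraph V) (f : W → V)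
    (hf : Function.Injective f) (hadj : ∀ a b, H.Adj a b → G.Adj (f a) (f b)) :
    ContainsSubdivision H G := by
  refine ⟨f, fun a b h => (hadj a b h).toWalk, hf, ?_, ?_, ?_⟩
  · intro a b h
    exact Walk.IsPath.of_adj (hadj a b h)
  · intro a b h w hw
    simp only [Adj.toWalk, Walk.support_cons, Walk.support_nil, List.mem_cons,
      List.not_mem_nil, or_false] at hw
    rcases hw with hw | hw
    · exact Or.inl (hf hw)
    · exact Or.inr (hf hw)
  · intro a b c d h h' _ v hv hv'
    simp only [Adj.toWalk, Walk.support_cons, Walk.support_nil, List.mem_cons,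
      List.not_mem_nil, or_false] at hv hv'
    exact ⟨hv, hv'⟩

/-- one edge is subdivided by one vertex -/
lemma subdivision_of_one {W V : Type} (H : SimpleGraph W) (G : SimpleGraph V) (f : W → V)
    (hf : Function.Injective f) (v : V) (hv : ∀ w, f w ≠ v) (e0 : Sym2 W)
    (hadj : ∀ a b, H.Adj a b → s(a, b) ≠ e0 → G.Adj (f a) (f b))
    (h0 : ∀ a b, s(a, b) = e0 → G.Adj (f a) v) :
    ContainsSubdivision H G := by
  have hex : ∀ a b, H.Adj a b → ∃ p : G.Walk (f a) (f b), p.IsPath ∧
      ∀ u ∈ p.support, u = f a ∨ u = f b ∨ (u = v ∧ s(a, b) = e0) := by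
    intro a b hab
    by_cases he : s(a, b) = e0
    · have h1 := h0 a b he
      have h2 : G.Adj v (f b) := (h0 b a (by rw [Sym2.eq_swap]; exact he)).symm
      refine ⟨Walk.cons h1 (Walk.cons h2 Walk.nil), ?_, ?_⟩
      · rw [Walk.cons_isPath_iff, Walk.cons_isPath_iff]
        refine ⟨⟨Walk.IsPath.nil, ?_⟩, ?_⟩
        · simp only [Walk.support_nil, List.mem_singleton]
          exact fun h => hv b h.symm
        · simp only [Walk.support_cons, Walk.support_nil, List.mem_cons, List.not_mem_nil, or_false]
          rintro (h | h)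
          · exact hv a h
          · exact hab.ne (hf h)
      · intro u hu
        simp only [Walk.support_cons, Walk.support_nil, List.mem_cons, List.not_mem_nil,
          or_false] at hu
        rcases hu with hu | hu | hu
        · exact Or.inl hu
        · exact Or.inr (Or.inr ⟨hu, he⟩)
        · exact Or.inr (Or.inl hu)
    · refine ⟨(hadj a b hab he).toWalk, Walk.IsPath.of_adj _, ?_⟩
      intro u hu
      simp only [Adj.toWalk, Walk.support_cons, Walk.support_nil, List.mem_cons,
        List.not_mem_nil, or_false] at hu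
      rcases hu with hu | hu
      · exact Or.inl hu
      · exact Or.inr (Or.inl hu)
  choose P hP hs using hex
  refine ⟨f, P, hf, hP, ?_, ?_⟩
  · intro a b h w hw
    rcases hs a b h _ hw with h1 | h1 | h1
    · exact Or.inl (hf h1)
    · exact Or.inr (hf h1)
    · exact absurd h1.1 (hv w)
  · intro a b c d h h' hne u hu hu'
    have h1 := hs a b h u hu
    have h2 := hs c d h' u hu'
    rcases h1 with h1 | h1 | h1
    · rcases h2 with h2 | h2 | h2
      · exact ⟨Or.inl h1, Or.inl h2⟩
      · exact ⟨Or.inl h1, Or.inr h2⟩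
      · exact absurd (h1.symm.trans h2.1) (hv a)
    · rcases h2 with h2 | h2 | h2
      · exact ⟨Or.inr h1, Or.inl h2⟩
      · exact ⟨Or.inr h1, Or.inr h2⟩
      · exact absurd (h1.symm.trans h2.1) (hv b)
    · rcases h2 with h2 | h2 | h2
      · exact absurd (h2.symm.trans h1.1) (hv c)
      · exact absurd (h2.symm.trans h1.1) (hv d)
      · exact absurd (h1.2.trans h2.2.symm) hne

/-- the graph of the edges of colour `i + 1` -/
def col {n : ℕ} (c : Fin n → Fin n → ℕ) (hs : ∀ u v, c u v = c v u) (hd : ∀ u, c u u = 0)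
    (i : ℕ) : SimpleGraph (Fin n) where
  Adj u v := c u v = i + 1
  symm := ⟨fun u v h => by rw [hs]; exact h⟩
  loopless := ⟨fun u h => by rw [hd] at h; omega⟩

section
variable {n : ℕ} {c : Fin n → Fin n → ℕ} {hs : ∀ u v, c u v = c v u} {hd : ∀ u, c u u = 0}

lemma col_K5 (i : ℕ) (f : Fin 5 → Fin n) (hf : Function.Injective f)
    (h : ∀ a b, a ≠ b → c (f a) (f b) = i + 1) : Nonplanar (col c hs hd i) :=
  Or.inl (subdivision_of_copy _ _ f hf fun a b hab => h a b hab.ne)

lemma elim_inj (f g : Fin 3 → Fin n) (hf : Function.Injective f)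
    (hg : Function.Injective g)
    (h : ∀ a b, f a ≠ g b) : Function.Injective (Sum.elim f g) := by
  intro a b hab
  rcases a with a | a <;> rcases b with b | b
  · exact congrArg _ (hf hab)
  · exact absurd hab (h a b)
  · exact absurd hab.symm (h b a)
  · exact congrArg _ (hg hab)

lemma col_K33 (i : ℕ) (f g : Fin 3 → Fin n) (hf : Function.Injective f)
    (hg : Function.Injective g)
    (h : ∀ a b, c (f a) (g b) = i + 1) : Nonplanar (col c hs hd i) := by
  refine Or.inr (subdivision_of_copy _ _ (Sum.elim f g) (elim_inj f g hf hg ?_) ?_)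
  · intro a b hab
    have := h a b
    rw [hab, hd] at this
    omega
  · intro a b hab
    rcases a with a | a <;> rcases b with b | b
    · simp at hab
    · exact h a b
    · change c (g a) (f b) = _
      rw [hs]
      exact h b a
    · simp at hab

/-- the edge `f 0`, `g 0` is subdivided by `v` -/
lemma col_S (i : ℕ) (f g : Fin 3 → Fin n) (v : Fin n) (hf : Function.Injective f)
    (hg : Function.Injective g) (hfg : ∀ a b, f a ≠ g b) (hfv : ∀ a, f a ≠ v ∧ g a ≠ v)
    (h : ∀ a b, (a ≠ 0 ∨ b ≠ 0) → c (f a) (g b) = i + 1) (h1 : c (f 0) v = i + 1)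
    (h2 : c (g 0) v = i + 1) : Nonplanar (col c hs hd i) := by
  refine Or.inr (subdivision_of_one _ _ (Sum.elim f g) (elim_inj f g hf hg hfg) v ?_
    s(Sum.inl 0, Sum.inr 0) ?_ ?_)
  · rintro (a | a)
    · exact (hfv a).1
    · exact (hfv a).2
  · intro a b hab hne
    rcases a with a | a <;> rcases b with b | b
    · simp at hab
    · refine h a b ?_
      by_contra hcon
      push Not at hcon
      exact hne (by rw [hcon.1, hcon.2])
    · change c (g a) (f b) = _
      rw [hs]
      refine h b a ?_
      by_contra hcon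
      push Not at hcon
      exact hne (by rw [hcon.1, hcon.2, Sym2.eq_swap])
    · simp at hab
  · intro a b hab
    rw [Sym2.eq_iff] at hab
    rcases hab with ⟨ha, -⟩ | ⟨ha, -⟩
    · subst ha; exact h1
    · subst ha; exact h2

lemma fam_col {k : ℕ} (h : ∀ i : Fin k, Nonplanar (col c hs hd i)) :
    Fam fun i : Fin k => col c hs hd i := by
  refine ⟨h, ?_⟩
  intro i j hij u v h1 h2
  have h1' : c u v = i + 1 := h1
  have h2' : c u v = j + 1 := h2
  exact hij (Fin.ext (by omega))

end

/-- the colour from a table -/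
def tab (T : List (List ℕ)) {n : ℕ} (u v : Fin n) : ℕ := (T.getD u.val []).getD v.val 0

end Pool.Agent.Y677.Co
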