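import Pool.Agent.Y677.Co.Dat

/-!
# Coarseness of complete graphs: the values (helper677)
-/

set_option autoImplicit false

namespace Pool.Agent.Y677.Co

open SimpleGraph

theorem k13 : coarseness (⊤ : SimpleGraph (Fin 13)) = 8 :=
  exact (packing_of_fam fam13 (by simp)) fun l hl => by have := upper' hl; omega

theorem p18 : HasPacking (⊤ : SimpleGraph (Fin 18)) 16 := packing_of_fam fam18 (by simp)

theorem k18 : coarseness (⊤ : SimpleGraph (Fin 18)) = 16 :=
  exact p18 fun l hl => by have := upper (by norm_num) hl; omega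

theorem p21 : HasPacking (⊤ : SimpleGraph (Fin 21)) 22 :=
  step_three (m := 18) (k := 16) (r := 6) (by norm_num) p18

theorem k21 : coarseness (⊤ : SimpleGraph (Fin 21)) = 22 :=
  exact p21 fun l hl => by have := upper (by norm_num) hl; omega

theorem p24 : HasPacking (⊤ : SimpleGraph (Fin 24)) 29 :=
  step_three (m := 21) (k := 22) (r := 7) (by norm_num) p21

theorem k24 : coarseness (⊤ : SimpleGraph (Fin 24)) = 29 :=
  exact p24 fun l hl => by have := upper (by norm_num) hl; omega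

theorem p27 : HasPacking (⊤ : SimpleGraph (Fin 27)) 37 :=
  step_three (m := 24) (k := 29) (r := 8) (by norm_num) p24

theorem k27 : coarseness (⊤ : SimpleGraph (Fin 27)) = 37 :=
  exact p27 fun l hl => by have := upper (by norm_num) hl; omega

/-- the family -/
theorem pfam (m : ℕ) : ∃ k, 2 * k = 9 * (m + 1) ^ 2 + 13 * (m + 1) + 4 ∧
    HasPacking (⊤ : SimpleGraph (Fin (9 * (m + 1) + 7))) k := by
  induction m with
  | zero => exact ⟨13, by norm_num, packing_of_fam fam16 (by simp)⟩
  | succ m ih =>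
    obtain ⟨k, hk, h⟩ := ih
    refine ⟨k + 14 + 3 * (3 * m + 2), by nlinarith, ?_⟩
    have h1 := step_nine (m := 9 * (m + 1) + 7) (r := 3 * m + 2) (by omega) h
      ⟨_, fam19, fun i u v huv => hole19 u v (by
        have : tab T19 u v = i.val + 1 := huv
        omega)⟩
    have h2 : 9 * (m + 1 + 1) + 7 = 9 * (m + 1) + 7 + 9 := by ring
    rw [h2]
    exact h1

theorem kfam (n : ℕ) (hn : 1 ≤ n) :
    2 * coarseness (⊤ : SimpleGraph (Fin (9 * n + 7))) = 9 * n ^ 2 + 13 * n + 4 := by
  obtain ⟨m, rfl⟩ : ∃ m, n = m + 1 := ⟨n - 1, by omega⟩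
  obtain ⟨k, hk, h⟩ := pfam m
  rw [exact h ?_]
  · exact hk
  · intro l hl
    have h1 := upper' hl
    have h2 : 9 * (m + 1) + 7 - 1 = 9 * (m + 1) + 6 := by omega
    rw [h2] at h1
    have h3 : 18 * l ≤ 9 * (2 * k) + 6 := by
      rw [hk]
      nlinarith
    omega

theorem upper3 (r : ℕ) : coarseness (⊤ : SimpleGraph (Fin (3 * r))) ≤ r * (r - 1) / 2 + r / 5 := by
  refine csSup_le ⟨0, ⟨fun i => i.elim0, fun i => i.elim0, fun i => i.elim0⟩⟩ fun l hl => ?_
  have h1 := upper (by omega) (show HasPacking (⊤ : SimpleGraph (Fin (3 * r))) l from hl)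
  rcases Nat.eq_zero_or_pos r with rfl | hr
  · omega
  · obtain ⟨s, rfl⟩ : ∃ s, r = s + 1 := ⟨r - 1, by omega⟩
    have h2 : 3 * (s + 1) - 1 = 3 * s + 2 := by omega
    have h3 : s + 1 - 1 = s := by omega
    rw [h2] at h1
    rw [h3]
    obtain ⟨c, hc⟩ : ∃ c, (s + 1) * s = 2 * c := (Nat.even_mul_succ_self s).two_dvd.imp
      fun c hc => by rw [mul_comm]; exact hc
    rw [hc, Nat.mul_div_cancel_left c (by norm_num)]
    have h4 : 90 * l + 12 * (s + 1) ≤ 45 * (2 * c) + 30 * (s + 1) := by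
      rw [← hc]
      nlinarith
    omega

end Pool.Agent.Y677.Co
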