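import Pool.Agent.Y677.Co.Low

/-!
# Coarseness of complete graphs: larger packings from smaller ones (helper677)
-/

set_option autoImplicit false

namespace Pool.Agent.Y677.Co

open SimpleGraph

lemma fam_of_packing {V : Type} {k : ℕ} (h : HasPacking (⊤ : SimpleGraph V) k) :
    ∃ H : Fin k → SimpleGraph V, Fam H := by
  obtain ⟨H, hH, hd⟩ := h
  refine ⟨fun i => (H i).spanningCoe, ?_, ?_⟩
  · intro i
    exact nonplanar_map (G := (H i).coe) ⟨Subtype.val, fun h => h⟩ Subtype.val_injective (hH i)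
  · intro i j hij u v h1 h2
    exact Set.disjoint_left.mp (hd i j hij) (show s(u, v) ∈ (H i).edgeSet from h1)
      (show s(u, v) ∈ (H j).edgeSet from h2)

lemma fam_map {V V' I : Type} {H : I → SimpleGraph V} (h : Fam H) (e : V ↪ V') :
    Fam fun i => (H i).map e := by
  refine ⟨fun i => nonplanar_map (G := H i) ⟨e, fun {a b} hab => ?_⟩ e.injective (h.1 i), ?_⟩
  · rw [map_adj]
    exact ⟨a, b, hab, rfl, rfl⟩
  · intro i j hij u v h1 h2
    rw [map_adj] at h1 h2
    obtain ⟨a, b, hab, rfl, rfl⟩ := h1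
    obtain ⟨a', b', hab', ha, hb⟩ := h2
    have h1 := e.injective ha
    have h2 := e.injective hb
    subst h1
    subst h2
    exact h.2 i j hij _ _ hab hab'

lemma fam_sum {V I J : Type} {H : I → SimpleGraph V} {K : J → SimpleGraph V} (h : Fam H)
    (k : Fam K) (hd : ∀ i j u v, (H i).Adj u v → ¬ (K j).Adj u v) : Fam (Sum.elim H K) := by
  refine ⟨?_, ?_⟩
  · rintro (i | i)
    · exact h.1 i
    · exact k.1 i
  · rintro (i | i) (j | j) hij u v h1 h2
    · exact h.2 i j (fun hh => hij (by rw [hh])) u v h1 h2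
    · exact hd i j u v h1 h2
    · exact hd j i u v h2 h1
    · exact k.2 i j (fun hh => hij (by rw [hh])) u v h1 h2

/-- a copy of `K₃,₃` on two intervals of three numbers -/
def grid (N α β i j : ℕ) : SimpleGraph (Fin N) where
  Adj u v := u ≠ v ∧ ((α + 3 * i ≤ u.val ∧ u.val < α + 3 * i + 3 ∧ β + 3 * j ≤ v.val ∧
    v.val < β + 3 * j + 3) ∨ (α + 3 * i ≤ v.val ∧ v.val < α + 3 * i + 3 ∧ β + 3 * j ≤ u.val ∧
    u.val < β + 3 * j + 3))
  symm := ⟨fun u v h => ⟨h.1.symm, h.2.symm⟩⟩
  loopless := ⟨fun u h => h.1 rfl⟩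

lemma fam_grid (N α β a b : ℕ) (h1 : α + 3 * a ≤ N) (h2 : β + 3 * b ≤ α) :
    Fam fun p : Fin a × Fin b => grid N α β p.1 p.2 := by
  refine ⟨?_, ?_⟩
  · rintro ⟨i, j⟩
    have hi := i.2
    have hj := j.2
    have hf : ∀ x : Fin 3, α + 3 * i.val + x.val < N := fun x => by have := x.2; omega
    have hg : ∀ x : Fin 3, β + 3 * j.val + x.val < N := fun x => by have := x.2; omega
    refine Or.inr (subdivision_of_copy _ _
      (Sum.elim (fun x : Fin 3 => (⟨α + 3 * i.val + x.val, hf x⟩ : Fin N))
        (fun x : Fin 3 => ⟨β + 3 * j.val + x.val, hg x⟩)) ?_ ?_)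
    · rintro (x | x) (y | y) hxy <;> simp only [Sum.elim_inl, Sum.elim_inr, Fin.mk.injEq] at hxy
      · exact congrArg _ (Fin.ext (by omega))
      · have := y.2
        omega
      · have := x.2
        omega
      · exact congrArg _ (Fin.ext (by omega))
    · rintro (x | x) (y | y) hxy
      · simp at hxy
      · have hx := x.2
        have hy := y.2
        refine ⟨?_, Or.inl ?_⟩
        · simp only [Sum.elim_inl, Sum.elim_inr, ne_eq, Fin.mk.injEq]
          omega
        · simp only [Sum.elim_inl, Sum.elim_inr]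
          omega
      · have hx := x.2
        have hy := y.2
        refine ⟨?_, Or.inr ?_⟩
        · simp only [Sum.elim_inl, Sum.elim_inr, ne_eq, Fin.mk.injEq]
          omega
        · simp only [Sum.elim_inl, Sum.elim_inr]
          omega
      · simp at hxy
  · rintro ⟨i, j⟩ ⟨i', j'⟩ hij u v ⟨-, h1'⟩ ⟨-, h2'⟩
    have hi := i.2
    have hj := j.2
    have hi' := i'.2
    have hj' := j'.2
    have hne : ¬ (i.val = i'.val ∧ j.val = j'.val) := by
      rintro ⟨ha, hb⟩
      exact hij (by rw [Fin.ext ha, Fin.ext hb])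
    simp only at h1' h2'
    rcases h1' with h | h <;> rcases h2' with h' | h' <;> omega

/-- three new points -/
theorem step_three {m k r : ℕ} (hr : 3 * r ≤ m) (h : HasPacking (⊤ : SimpleGraph (Fin m)) k) :
    HasPacking (⊤ : SimpleGraph (Fin (m + 3))) (k + r) := by
  obtain ⟨H, hH⟩ := fam_of_packing h
  have h1 := fam_map hH (Fin.castAddEmb 3)
  have h2 := fam_grid (m + 3) m 0 1 r (by omega) (by omega)
  refine packing_of_fam (fam_sum h1 h2 ?_) (by simp)
  rintro i ⟨i', j'⟩ u v hu ⟨-, hv⟩
  rw [map_adj] at hu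
  obtain ⟨a, b, -, rfl, rfl⟩ := hu
  have ha := a.2
  have hb := b.2
  simp only [Fin.castAddEmb_apply, Fin.val_castAdd] at hv
  omega

/-- nine new points, from a packing of the complete graph on `19` points with a hole of ten
points -/
theorem step_nine {m k r : ℕ} (hr : 3 * r + 10 ≤ m) (h : HasPacking (⊤ : SimpleGraph (Fin m)) k)
    (hole : ∃ H : Fin 14 → SimpleGraph (Fin 19), Fam H ∧
      ∀ i u v, (H i).Adj u v → u.val < 9 ∨ v.val < 9) :
    HasPacking (⊤ : SimpleGraph (Fin (m + 9))) (k + 14 + 3 * r) := by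
  obtain ⟨H, hH⟩ := fam_of_packing h
  obtain ⟨K, hK, hKh⟩ := hole
  have h1 := fam_map hH (Fin.castAddEmb 9)
  have h2 := fam_grid (m + 9) m 10 3 r (by omega) (by omega)
  let e : Fin 19 ↪ Fin (m + 9) :=
    ⟨fun x => if hx : x.val < 9 then ⟨m + x.val, by omega⟩ else ⟨x.val - 9, by omega⟩, by
      intro x y hxy
      dsimp only at hxy
      split_ifs at hxy with h1 h2 h2 <;> rw [Fin.mk.injEq] at hxy <;> exact Fin.ext (by omega)⟩
  have he : ∀ x : Fin 19, (x.val < 9 → (e x).val = m + x.val) ∧
      (¬ x.val < 9 → (e x).val = x.val - 9) := by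
    intro x
    constructor
    · intro hx
      show (dite _ _ _ : Fin (m + 9)).val = _
      rw [dif_pos hx]
    · intro hx
      show (dite _ _ _ : Fin (m + 9)).val = _
      rw [dif_neg hx]
  have h3 := fam_map hK e
  have h12 := fam_sum h1 h3 (by
    intro i j u v hu hv
    rw [map_adj] at hu hv
    obtain ⟨a, b, -, rfl, rfl⟩ := hu
    obtain ⟨a', b', hab', ha, hb⟩ := hv
    have h4 := hKh j a' b' hab'
    have ha2 := congrArg Fin.val ha
    have hb2 := congrArg Fin.val hb
    simp only [Fin.castAddEmb_apply, Fin.val_castAdd] at ha2 hb2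
    have := a.2
    have := b.2
    rcases h4 with h4 | h4
    · have := (he a').1 h4
      omega
    · have := (he b').1 h4
      omega)
  refine packing_of_fam (fam_sum h12 h2 ?_) (by simp)
  rintro (i | i) ⟨i', j'⟩ u v hu ⟨-, hv⟩
  · change ((H i).map (Fin.castAddEmb 9)).Adj u v at hu
    rw [map_adj] at hu
    obtain ⟨a, b, -, rfl, rfl⟩ := hu
    have ha := a.2
    have hb := b.2
    simp only [Fin.castAddEmb_apply, Fin.val_castAdd] at hv
    omega
  · change ((K i).map e).Adj u v at hu
    rw [map_adj] at hu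
    obtain ⟨a, b, hab, rfl, rfl⟩ := hu
    have ha := a.2
    have hb := b.2
    simp only at hv
    by_cases h9 : a.val < 9 <;> by_cases h9' : b.val < 9
    · have e1 := (he a).1 h9
      have e2 := (he b).1 h9'
      omega
    · have e1 := (he a).1 h9
      have e2 := (he b).2 h9'
      omega
    · have e1 := (he a).2 h9
      have e2 := (he b).1 h9'
      omega
    · have := hKh i a b hab
      omega

end Pool.Agent.Y677.Co
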