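import Mathlib

/-!
# Coarseness of complete graphs: the upper bound (helper677)

The definitions `ContainsSubdivision`, `Nonplanar`, `HasPacking`, `coarseness` are copied from the
starting file `Pool/Agent/Results/MP_64ab56_co/Coarse21.lean`.
-/

set_option autoImplicit false

namespace Pool.Agent.Y677.Co

open SimpleGraph

/-- `G` contains a subdivision of `H`: there are distinct branch vertices `f w` of `G`, one for
each vertex `w` of `H`, and for every edge `a b` of `H` a path of `G` from `f a` to `f b`, such
that the only branch vertices on the path are its two ends, and paths of different edges of `H`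
meet only in vertices that are ends of both. -/
def ContainsSubdivision {W V : Type} (H : SimpleGraph W) (G : SimpleGraph V) : Prop :=
  ∃ (f : W → V) (P : ∀ a b : W, H.Adj a b → G.Walk (f a) (f b)),
    Function.Injective f ∧
    (∀ a b h, (P a b h).IsPath) ∧
    (∀ a b h w, f w ∈ (P a b h).support → w = a ∨ w = b) ∧
    (∀ a b c d h h', s(a, b) ≠ s(c, d) → ∀ v, v ∈ (P a b h).support →
      v ∈ (P c d h').support → (v = f a ∨ v = f b) ∧ (v = f c ∨ v = f d))

/-- A graph is nonplanar if it contains a subdivision of `K₅` or of `K₃,₃` (Kuratowski). -/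
def Nonplanar {V : Type} (G : SimpleGraph V) : Prop :=
  ContainsSubdivision (⊤ : SimpleGraph (Fin 5)) G ∨
    ContainsSubdivision (completeBipartiteGraph (Fin 3) (Fin 3)) G

/-- There are `k` pairwise edge-disjoint nonplanar subgraphs of `G`. -/
def HasPacking {V : Type} (G : SimpleGraph V) (k : ℕ) : Prop :=
  ∃ H : Fin k → G.Subgraph, (∀ i, Nonplanar (H i).coe) ∧
    ∀ i j, i ≠ j → Disjoint (H i).edgeSet (H j).edgeSet

/-- The coarseness of `G`: the largest `k` such that `G` contains `k` pairwise edge-disjoint
nonplanar subgraphs. -/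
noncomputable def coarseness {V : Type} (G : SimpleGraph V) : ℕ :=
  sSup {k | HasPacking G k}

open scoped Classical in
/-- the number of edges of `F` at `v` -/
noncomputable def dg {V : Type} (F : Finset (Sym2 V)) (v : V) : ℕ := (F.filter (fun e => v ∈ e)).card

open scoped Classical in
/-- the degrees along a path -/
lemma dg_path {V : Type} {G : SimpleGraph V} {x y : V} (p : G.Walk x y) (hp : p.IsPath) (v : V) :
    dg p.edges.toFinset v + (if v = x then 1 else 0) + (if v = y then 1 else 0)
      = if v ∈ p.support then 2 else 0 := by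
  induction p with
  | nil =>
    simp only [Walk.edges_nil, List.toFinset_nil, dg, Finset.filter_empty, Finset.card_empty,
      Walk.support_nil, List.mem_singleton]
    split_ifs <;> rfl
  | @cons x w y h q ih =>
    rw [Walk.cons_isPath_iff] at hp
    have ih' := ih hp.1
    have hne : x ≠ w := h.ne
    have hnot : s(x, w) ∉ q.edges.toFinset := by
      intro hm
      rw [List.mem_toFinset] at hm
      exact hp.2 (q.fst_mem_support_of_mem_edges hm)
    have h1 : dg (Walk.cons h q).edges.toFinset v
        = dg q.edges.toFinset v + ((if v = x then 1 else 0) + (if v = w then 1 else 0)) := by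
      unfold dg
      rw [Walk.edges_cons, List.toFinset_cons, Finset.filter_insert]
      by_cases hv : v ∈ s(x, w)
      · rw [if_pos hv, Finset.card_insert_of_notMem (fun hm => hnot (Finset.mem_filter.mp hm).1)]
        rw [Sym2.mem_iff] at hv
        rcases hv with hv | hv
        · subst hv
          simp [hne]
        · subst hv
          simp [hne.symm]
      · rw [if_neg hv]
        rw [Sym2.mem_iff, not_or] at hv
        simp [hv.1, hv.2]
    rw [h1]
    have h2 : (if v ∈ (Walk.cons h q).support then 2 else 0)
        = (if v = x then 2 else 0) + (if v ∈ q.support then 2 else 0) := by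
      rw [Walk.support_cons]
      by_cases hv : v = x
      · subst hv
        simp [hp.2]
      · simp [hv]
    rw [h2, ← ih']
    split_ifs <;> omega

/-- subdivisions are preserved by injective homomorphisms -/
lemma sub_map {W V V' : Type} {H : SimpleGraph W} {G : SimpleGraph V} {G' : SimpleGraph V'}
    (φ : G →g G') (hφ : Function.Injective φ) (h : ContainsSubdivision H G) :
    ContainsSubdivision H G' := by
  obtain ⟨f, P, hf, hP, hb, hd⟩ := h
  refine ⟨fun w => φ (f w), fun a b h => (P a b h).map φ, fun a b hab => hf (hφ hab), ?_, ?_, ?_⟩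
  · intro a b h
    exact (hP a b h).map hφ
  · intro a b h w hw
    rw [Walk.support_map, List.mem_map] at hw
    obtain ⟨u, hu, hu'⟩ := hw
    have : u = f w := hφ hu'
    exact hb a b h w (this ▸ hu)
  · intro a b c d h h' hne v hv hv'
    rw [Walk.support_map, List.mem_map] at hv hv'
    obtain ⟨u, hu, rfl⟩ := hv
    obtain ⟨u', hu', hu''⟩ := hv'
    have : u' = u := hφ hu''
    subst this
    obtain ⟨h1, h2⟩ := hd a b c d h h' hne u' hu hu'
    refine ⟨h1.imp (fun h => by rw [h]) (fun h => by rw [h]),
      h2.imp (fun h => by rw [h]) (fun h => by rw [h])⟩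

lemma nonplanar_map {V V' : Type} {G : SimpleGraph V} {G' : SimpleGraph V'}
    (φ : G →g G') (hφ : Function.Injective φ) (h : Nonplanar G) : Nonplanar G' :=
  h.imp (sub_map φ hφ) (sub_map φ hφ)

open scoped Classical in
/-- the handshake lemma -/
lemma handshake {V : Type} [Fintype V] (F : Finset (Sym2 V)) (hF : ∀ e ∈ F, ¬ e.IsDiag) :
    ∑ v, dg F v = 2 * F.card := by
  unfold dg
  simp_rw [Finset.card_filter]
  rw [Finset.sum_comm]
  have : ∀ e ∈ F, ∑ v : V, (if v ∈ e then 1 else 0) = 2 := by
    intro e he
    have hd := hF e he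
    induction e with
    | h a b =>
      rw [← Finset.card_filter]
      have : (Finset.univ.filter fun v => v ∈ s(a, b)) = {a, b} := by
        ext v; simp
      rw [this]
      exact Finset.card_pair (by simpa using hd)
  rw [Finset.sum_congr rfl this, Finset.sum_const, smul_eq_mul, mul_comm]

open scoped Classical in
/-- the edges of a subdivision and their degrees -/
lemma sub_edges {W V I : Type} [Fintype V] [Fintype W] [DecidableEq W] [Fintype I] {H : SimpleGraph W}
    {G : SimpleGraph V}
    (α β : I → W) (hadj : ∀ i, H.Adj (α i) (β i))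
    (hinj : ∀ i j, i ≠ j → s(α i, β i) ≠ s(α j, β j)) (δ : ℕ)
    (hδ : ∀ w, (Finset.univ.filter fun i => α i = w ∨ β i = w).card = δ)
    (h : ContainsSubdivision H G) :
    ∃ F : Finset (Sym2 V), (∀ e ∈ F, e ∈ G.edgeSet) ∧ δ * Fintype.card W ≤ 2 * F.card ∧
      ∑ v, dg F v % 3 + δ * Fintype.card W = 2 * F.card + (δ % 3) * Fintype.card W := by
  obtain ⟨f, P, hf, hP, hb, hd⟩ := h
  set p : ∀ i, G.Walk (f (α i)) (f (β i)) := fun i => P _ _ (hadj i) with hp
  have hdisj : ∀ i j, i ≠ j → Disjoint (p i).edges.toFinset (p j).edges.toFinset := by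
    intro i j hij
    rw [Finset.disjoint_left]
    intro e he he'
    rw [List.mem_toFinset] at he he'
    have hG : e ∈ G.edgeSet := Walk.edges_subset_edgeSet _ he
    induction e with
    | h a b =>
      have hab : a ≠ b := G.ne_of_adj hG
      obtain ⟨h1, h2⟩ := hd _ _ _ _ (hadj i) (hadj j) (hinj i j hij) a
        (Walk.fst_mem_support_of_mem_edges _ he) (Walk.fst_mem_support_of_mem_edges _ he')
      obtain ⟨h3, h4⟩ := hd _ _ _ _ (hadj i) (hadj j) (hinj i j hij) b
        (Walk.snd_mem_support_of_mem_edges _ he) (Walk.snd_mem_support_of_mem_edges _ he')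
      have e1 : s(a, b) = s(f (α i), f (β i)) := by
        rcases h1 with h1 | h1 <;> rcases h3 with h3 | h3
        · exact absurd (h1.trans h3.symm) hab
        · rw [h1, h3]
        · rw [h1, h3, Sym2.eq_swap]
        · exact absurd (h1.trans h3.symm) hab
      have e2 : s(a, b) = s(f (α j), f (β j)) := by
        rcases h2 with h1 | h1 <;> rcases h4 with h3 | h3
        · exact absurd (h1.trans h3.symm) hab
        · rw [h1, h3]
        · rw [h1, h3, Sym2.eq_swap]
        · exact absurd (h1.trans h3.symm) hab
      have e3 : Sym2.map f s(α i, β i) = Sym2.map f s(α j, β j) := by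
        rw [Sym2.map_mk, Sym2.map_mk]
        exact e1.symm.trans e2
      exact hinj i j hij (Sym2.map.injective hf e3)
  set F : Finset (Sym2 V) := Finset.univ.biUnion fun i => (p i).edges.toFinset with hFdef
  have hdg : ∀ v, dg F v = ∑ i, dg (p i).edges.toFinset v := by
    intro v
    unfold dg
    rw [hFdef, Finset.filter_biUnion, Finset.card_biUnion]
    intro i _ j _ hij
    exact Finset.disjoint_filter_filter (hdisj i j hij)
  have hFe : ∀ e ∈ F, e ∈ G.edgeSet := by
    intro e he
    rw [hFdef, Finset.mem_biUnion] at he
    obtain ⟨i, _, hi⟩ := he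
    exact Walk.edges_subset_edgeSet _ (List.mem_toFinset.mp hi)
  have hbr : ∀ w, dg F (f w) = δ := by
    intro w
    rw [hdg, ← hδ w, Finset.card_filter]
    refine Finset.sum_congr rfl fun i _ => ?_
    have h1 := dg_path (p i) (hP _ _ _) (f w)
    have h2 : α i ≠ β i := (hadj i).ne
    simp only [hf.eq_iff] at h1
    by_cases ha : α i = w
    · have hbne : ¬ (w = β i) := fun h => h2 (ha.trans h)
      rw [if_pos ha.symm, if_neg hbne] at h1
      have hs : f w ∈ (p i).support := by
        have h0 : f w = f (α i) := by rw [ha]
        rw [h0]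
        exact (p i).start_mem_support
      rw [if_pos hs] at h1
      rw [if_pos (Or.inl ha)]
      omega
    · by_cases hbb : β i = w
      · rw [if_neg (fun h => ha h.symm), if_pos hbb.symm] at h1
        have hs : f w ∈ (p i).support := by
          have h0 : f w = f (β i) := by rw [hbb]
          rw [h0]
          exact (p i).end_mem_support
        rw [if_pos hs] at h1
        rw [if_pos (Or.inr hbb)]
        omega
      · have hs : f w ∉ (p i).support := by
          intro hs
          rcases hb _ _ (hadj i) w hs with h | h
          · exact ha h.symm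
          · exact hbb h.symm
        rw [if_neg hs] at h1
        rw [if_neg (by tauto)]
        omega
  have hnb : ∀ v, v ∉ Set.range f → dg F v % 3 = dg F v := by
    intro v hv
    have hle : dg F v ≤ 2 := by
      rw [hdg]
      by_cases hex : ∃ i, v ∈ (p i).support
      · obtain ⟨i, hi⟩ := hex
        rw [Finset.sum_eq_single i]
        · have h1 := dg_path (p i) (hP _ _ _) v
          rw [if_pos hi] at h1
          omega
        · intro j _ hji
          have hj : v ∉ (p j).support := by
            intro hj
            obtain ⟨h1, -⟩ := hd _ _ _ _ (hadj j) (hadj i) (hinj j i hji) v hj hi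
            rcases h1 with h1 | h1
            · exact hv ⟨_, h1.symm⟩
            · exact hv ⟨_, h1.symm⟩
          have h1 := dg_path (p j) (hP _ _ _) v
          rw [if_neg hj] at h1
          omega
        · intro h
          exact absurd (Finset.mem_univ i) h
      · push Not at hex
        have : ∑ i, dg (p i).edges.toFinset v = 0 := by
          refine Finset.sum_eq_zero fun i _ => ?_
          have h1 := dg_path (p i) (hP _ _ _) v
          rw [if_neg (hex i)] at h1
          omega
        omega
    omega
  refine ⟨F, hFe, ?_⟩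
  have hh := handshake F (fun e he => G.not_isDiag_of_mem_edgeSet (hFe e he))
  have hsum : ∀ g : V → ℕ, ∑ v, g v = ∑ w, g (f w) + ∑ v ∈ Finset.univ.filter (fun v => v ∉ Set.range f), g v := by
    intro g
    rw [← Finset.sum_filter_add_sum_filter_not Finset.univ (fun v => v ∈ Set.range f)]
    congr 1
    have : (Finset.univ.filter fun v => v ∈ Set.range f) = Finset.univ.image f := by
      ext v; simp
    rw [this, Finset.sum_image (fun a _ b _ h => hf h)]
  rw [hsum] at hh
  rw [hsum (fun v => dg F v % 3)]
  have h1 : ∑ w, dg F (f w) = δ * Fintype.card W := by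
    rw [Finset.sum_congr rfl (fun w _ => hbr w), Finset.sum_const, Finset.card_univ, smul_eq_mul,
      mul_comm]
  have h2 : ∑ w, dg F (f w) % 3 = (δ % 3) * Fintype.card W := by
    rw [Finset.sum_congr rfl (fun w _ => by rw [hbr w]), Finset.sum_const, Finset.card_univ,
      smul_eq_mul, mul_comm]
  have h3 : ∑ v ∈ Finset.univ.filter (fun v => v ∉ Set.range f), dg F v % 3
      = ∑ v ∈ Finset.univ.filter (fun v => v ∉ Set.range f), dg F v :=
    Finset.sum_congr rfl fun v hv => hnb v (Finset.mem_filter.mp hv).2
  rw [h1] at hh
  rw [h2, h3]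
  constructor <;> omega

open scoped Classical in
/-- the edges of a nonplanar graph: the residues of the degrees are small -/
lemma nonplanar_edges {V : Type} [Fintype V] {G : SimpleGraph V} (h : Nonplanar G) :
    ∃ F : Finset (Sym2 V), (∀ e ∈ F, e ∈ G.edgeSet) ∧ 9 ≤ F.card ∧
      ∑ v, dg F v % 3 + 45 ≤ 5 * F.card := by
  rcases h with h | h
  · obtain ⟨F, hF, hc, hs⟩ := sub_edges (I := {q : Fin 5 × Fin 5 // q.1 < q.2})
      (fun q => q.1.1) (fun q => q.1.2) (fun q => by
        simp only [top_adj]; exact ne_of_lt q.2)
      (by decide) 4 (by decide) h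
    refine ⟨F, hF, ?_, ?_⟩ <;> simp only [Fintype.card_fin] at hs hc <;> omega
  · obtain ⟨F, hF, hc, hs⟩ := sub_edges (I := Fin 3 × Fin 3)
      (fun q => Sum.inl q.1) (fun q => Sum.inr q.2) (fun q => by simp)
      (by decide) 3 (by decide) h
    refine ⟨F, hF, ?_, ?_⟩ <;> simp only [Fintype.card_sum, Fintype.card_fin] at hs hc <;> omega

open scoped Classical in
lemma dg_biUnion {V I : Type} [Fintype I] [DecidableEq (Sym2 V)] (F : I → Finset (Sym2 V))
    (hd : ∀ i j, i ≠ j → Disjoint (F i) (F j)) (v : V) :
    dg (Finset.univ.biUnion F) v = ∑ i, dg (F i) v := by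
  unfold dg
  rw [Finset.filter_biUnion, Finset.card_biUnion]
  intro i _ j _ hij
  exact Finset.disjoint_filter_filter (hd i j hij)

open scoped Classical in
lemma dg_sdiff {V : Type} [DecidableEq (Sym2 V)] {E U : Finset (Sym2 V)} (h : U ⊆ E) (v : V) :
    dg E v = dg U v + dg (E \ U) v := by
  unfold dg
  rw [← Finset.card_union_of_disjoint]
  · congr 1
    rw [← Finset.filter_union, Finset.union_sdiff_of_subset h]
  · exact Finset.disjoint_filter_filter Finset.disjoint_sdiff

open scoped Classical in
lemma dg_eq {V : Type} {E : Finset (Sym2 V)} (v : V) (p : Sym2 V → Prop) [DecidablePred p]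
    (hp : ∀ e, p e ↔ v ∈ e) : dg E v = (E.filter p).card := by
  unfold dg
  congr 1
  ext e
  simp only [Finset.mem_filter, hp]

end Pool.Agent.Y677.Co
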