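import Pool.Agent.Y677.Co.Up

/-!
# Coarseness of complete graphs: the upper bound for `K_n`, `3 ∣ n` (helper677)
-/

set_option autoImplicit false

namespace Pool.Agent.Y677.Co

open SimpleGraph

/-- The number of edge-disjoint nonplanar subgraphs of `K_n`, for `n` divisible by three. -/
theorem upper {n k : ℕ} (hn : n % 3 = 0) (h : HasPacking (⊤ : SimpleGraph (Fin n)) k) :
    90 * k + 4 * n ≤ 5 * (n * (n - 1)) := by
  obtain ⟨H, hH, hd⟩ := h
  have hex : ∀ i, ∃ F : Finset (Sym2 (Fin n)), (∀ e ∈ F, e ∈ (H i).edgeSet) ∧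
      ∑ v, dg F v % 3 + 45 ≤ 5 * F.card := by
    intro i
    have h1 : Nonplanar (H i).spanningCoe :=
      nonplanar_map (G := (H i).coe) ⟨Subtype.val, fun h => h⟩ Subtype.val_injective (hH i)
    obtain ⟨F, hF, -, hs⟩ := nonplanar_edges h1
    refine ⟨F, fun e he => ?_, hs⟩
    have := hF e he
    induction e with
    | h a b => exact this
  choose F hF hs using hex
  set E : Finset (Sym2 (Fin n)) := (⊤ : SimpleGraph (Fin n)).edgeFinset with hE
  have hFE : ∀ i, F i ⊆ E := by
    intro i e he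
    rw [hE, mem_edgeFinset]
    exact (H i).edgeSet_subset (hF i e he)
  have hdisj : ∀ i j, i ≠ j → Disjoint (F i) (F j) := by
    intro i j hij
    rw [Finset.disjoint_left]
    intro e he he'
    exact Set.disjoint_left.mp (hd i j hij) (hF i e he) (hF j e he')
  set U : Finset (Sym2 (Fin n)) := Finset.univ.biUnion F with hU
  have hUE : U ⊆ E := by
    rw [hU]
    intro e he
    obtain ⟨i, _, hi⟩ := Finset.mem_biUnion.mp he
    exact hFE i hi
  have hUc : U.card = ∑ i, (F i).card := by
    rw [hU, Finset.card_biUnion fun i _ j _ hij => hdisj i j hij]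
  have hdU : ∀ v, dg U v = ∑ i, dg (F i) v := fun v => dg_biUnion F hdisj v
  have hdE : ∀ v, dg E v = dg U v + dg (E \ U) v := fun v => dg_sdiff hUE v
  have hndE : ∀ e ∈ E, ¬ e.IsDiag := fun e he =>
    (⊤ : SimpleGraph (Fin n)).not_isDiag_of_mem_edgeSet (mem_edgeFinset.mp he)
  have hdeg : ∀ v, dg E v = n - 1 := by
    intro v
    have h1 : (⊤ : SimpleGraph (Fin n)).degree v = n - 1 := by
      rw [complete_graph_degree, Fintype.card_fin]
    rw [← h1, ← card_incidenceFinset_eq_degree, dg_eq v (fun e => v ∈ e) (fun _ => Iff.rfl)]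
    congr 1
    ext e
    rw [Finset.mem_filter, mem_incidenceFinset, hE, mem_edgeFinset]
    exact Iff.rfl
  have hEc : 2 * E.card = n * (n - 1) := by
    rw [← handshake E hndE, Finset.sum_congr rfl (fun v _ => hdeg v), Finset.sum_const,
      Finset.card_univ, Fintype.card_fin, smul_eq_mul]
  have hRc : E.card = U.card + (E \ U).card := by
    rw [Finset.card_sdiff_of_subset hUE]
    have := Finset.card_le_card hUE
    omega
  have hR := handshake (E \ U) (fun e he => hndE e (Finset.mem_sdiff.mp he).1)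
  have hv : ∀ v : Fin n, 2 ≤ (∑ i, dg (F i) v % 3) + dg (E \ U) v := by
    intro v
    have h1 : (∑ i, dg (F i) v) % 3 = (∑ i, dg (F i) v % 3) % 3 := Finset.sum_nat_mod _ _ _
    have h2 := hdE v
    rw [hdeg, hdU] at h2
    have h3 : 0 < n := v.pos
    omega
  have hsum : 2 * n ≤ (∑ i, ∑ v, dg (F i) v % 3) + 2 * (E \ U).card := by
    rw [← hR, Finset.sum_comm, ← Finset.sum_add_distrib]
    calc 2 * n = ∑ _v : Fin n, 2 := by simp [mul_comm]
      _ ≤ _ := Finset.sum_le_sum fun v _ => hv v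
  have hsum2 : (∑ i, ∑ v, dg (F i) v % 3) + 45 * k ≤ 5 * U.card := by
    rw [hUc, Finset.mul_sum]
    calc (∑ i, ∑ v, dg (F i) v % 3) + 45 * k = ∑ i : Fin k, (∑ v, dg (F i) v % 3 + 45) := by
          rw [Finset.sum_add_distrib]; simp [mul_comm]
      _ ≤ _ := Finset.sum_le_sum fun i _ => hs i
  omega

/-- At most `⌊n (n - 1) / 18⌋` edge-disjoint nonplanar subgraphs. -/
theorem upper' {n k : ℕ} (h : HasPacking (⊤ : SimpleGraph (Fin n)) k) :
    18 * k ≤ n * (n - 1) := by
  classical
  obtain ⟨H, hH, hd⟩ := h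
  have hex : ∀ i, ∃ F : Finset (Sym2 (Fin n)), (∀ e ∈ F, e ∈ (H i).edgeSet) ∧ 9 ≤ F.card := by
    intro i
    have h1 : Nonplanar (H i).spanningCoe :=
      nonplanar_map (G := (H i).coe) ⟨Subtype.val, fun h => h⟩ Subtype.val_injective (hH i)
    obtain ⟨F, hF, hs, -⟩ := nonplanar_edges h1
    refine ⟨F, fun e he => ?_, hs⟩
    have := hF e he
    induction e with
    | h a b => exact this
  choose F hF hs using hex
  have hdisj : ∀ i j, i ≠ j → Disjoint (F i) (F j) := by
    intro i j hij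
    rw [Finset.disjoint_left]
    intro e he he'
    exact Set.disjoint_left.mp (hd i j hij) (hF i e he) (hF j e he')
  have hUE : Finset.univ.biUnion F ⊆ (⊤ : SimpleGraph (Fin n)).edgeFinset := by
    intro e he
    obtain ⟨i, _, hi⟩ := Finset.mem_biUnion.mp he
    rw [mem_edgeFinset]
    exact (H i).edgeSet_subset (hF i e hi)
  have h1 := Finset.card_le_card hUE
  rw [Finset.card_biUnion fun i _ j _ hij => hdisj i j hij, card_edgeFinset_top_eq_card_choose_two,
    Fintype.card_fin] at h1
  have h2 : ∑ _i : Fin k, 9 ≤ ∑ i, (F i).card := Finset.sum_le_sum fun i _ => hs i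
  rw [Finset.sum_const, Finset.card_univ, Fintype.card_fin, smul_eq_mul] at h2
  have h3 : n.choose 2 * 2 ≤ n * (n - 1) := by
    rw [Nat.choose_two_right]
    exact Nat.div_mul_le_self _ _
  omega

/-- the sizes of packings are bounded -/
theorem bdd (n : ℕ) : BddAbove {k | HasPacking (⊤ : SimpleGraph (Fin n)) k} :=
  ⟨n * (n - 1), fun k hk => by have := upper' hk; omega⟩

/-- exact value from a packing and a bound -/
theorem exact {n k : ℕ} (h : HasPacking (⊤ : SimpleGraph (Fin n)) k)
    (hb : ∀ l, HasPacking (⊤ : SimpleGraph (Fin n)) l → l ≤ k) :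
    coarseness (⊤ : SimpleGraph (Fin n)) = k :=
  le_antisymm (csSup_le ⟨k, h⟩ hb) (le_csSup (bdd n) h)

end Pool.Agent.Y677.Co
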